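import Pool.Agent.Work.MP_a9cb80_sn.Chain

/-!
# Face degree sequences of sona maps: a range where the answer is complete (MP_a9cb80_lc)

`Sona n d`: there is a sona map with `n` bounded faces of degrees `d 0, ..., d (n-1)`.  The degree
of the unbounded face (`none`) is then `4 n - 4 - ∑ d i`.  The face `o` is bounded or not.
-/

set_option autoImplicit false

namespace Pool.Agent.Results.MP_a9cb80_lc.CurlRange

open Pool.SN

theorem result :
    ∀ (n : ℕ) (d : Fin n → ℕ) (o : Option (Fin n)), 2 ≤ n →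
      2 * n ≤ o.elim (4 * n - 4 - ∑ i, d i) d + 2 +
        (Finset.univ.filter fun x : Option (Fin n) =>
          x ≠ o ∧ x.elim (4 * n - 4 - ∑ i, d i) d = 1).card →
      2 * n < o.elim (4 * n - 4 - ∑ i, d i) d + 2 +
        (Finset.univ.filter fun x : Option (Fin n) =>
          x ≠ o ∧ Odd (x.elim (4 * n - 4 - ∑ i, d i) d)).card →
      (Sona n d ↔ (∀ i, 1 ≤ d i) ∧ ∑ i, d i + 5 ≤ 4 * n ∧
        o.elim (4 * n - 4 - ∑ i, d i) d + 2 ≤ 2 * n) := by
  intro n d o h1 h5 h6
  constructor
  · intro h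
    obtain ⟨a, b, c, e⟩ := (main c_FIN c_NEC c_ONE).2.1 n d h1 h
    refine ⟨a, e, ?_⟩
    cases o with
    | none => simp only [Option.elim_none]; omega
    | some j => simpa using b j
  · rintro ⟨h2, h3, h4⟩
    exact range_any c_FIN n d o h1 h2 h3 h4 h5 h6

end Pool.Agent.Results.MP_a9cb80_lc.CurlRange
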