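import Pool.Agent.Work.MP_a9cb80_sn.B_CV
import Pool.Agent.Work.MP_a9cb80_sn.B_CUR
import Pool.Agent.Work.MP_a9cb80_sn.B_FV
import Pool.Agent.Work.MP_a9cb80_sn.B_ORB
import Pool.Agent.Work.MP_a9cb80_sn.B_INJ
import Pool.Agent.Work.MP_a9cb80_sn.B_LABx
import Pool.Agent.Work.MP_a9cb80_sn.B_CNT
import Pool.Agent.Work.MP_a9cb80_sn.B_ONEF
import Pool.Agent.Work.MP_a9cb80_sn.B_REM
import Pool.Agent.Work.MP_a9cb80_sn.B_FEQ
import Pool.Agent.Work.MP_a9cb80_sn.B_LBR
import Pool.Agent.Work.MP_a9cb80_sn.B_DEL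
import Pool.Agent.Work.MP_a9cb80_sn.B_RDF
import Pool.Agent.Work.MP_a9cb80_sn.B_RDBx
import Pool.Agent.Work.MP_a9cb80_sn.B_RED
import Pool.Agent.Work.MP_a9cb80_sn.B_BAF
import Pool.Agent.Work.MP_a9cb80_sn.B_SEM

/-!
# Curl reduction for face degree sequences of sona maps (MP_a9cb80_lc)

For each fixed `r ≥ 2` the sequences with `r` arbitrary entries and `k` entries 1 which are face
degree sequences of sona maps are described by finitely many integer systems.
-/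

set_option autoImplicit false

namespace Pool.Agent.Results.MP_a9cb80_lc.CurlReduction

open Pool.SN

theorem result :
    ∀ r : ℕ, 2 ≤ r →
      ∃ F : Finset ((Fin r → ℕ) × Finset (Option (Fin r) × Option (Fin r))),
        (∀ p, p ∈ F ↔ Bas r p.1 p.2) ∧
        ∀ (k : ℕ) (E : Fin r → ℕ), Sona (r + k) (Fin.append E (fun _ : Fin k => 1)) ↔
          ∃ p ∈ F, Sys r k E p.1 p.2 := by
  have hFV := p_FV p_CV
  have hCUR := p_CUR p_CV
  have hLAB := p_LAB p_ORB p_INJ hFV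
  have hDEL := p_DEL p_ONEF (p_REM p_CV) p_FEQ (p_LBR hFV)
  have hRDF := p_RDF hDEL p_CNT
  have hRDB := p_RDBx hCUR hLAB p_CNT
  exact p_SEM (p_RED hRDF hRDB) p_BAF

end Pool.Agent.Results.MP_a9cb80_lc.CurlReduction
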