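import Pool.Agent.Work.MP_a9cb80_sn.Chain
import Pool.Agent.Work.MP_a9cb80_sn.B_ONEF
import Pool.Agent.Work.MP_a9cb80_sn.B_REM
import Pool.Agent.Work.MP_a9cb80_sn.B_FEQ
import Pool.Agent.Work.MP_a9cb80_sn.B_LBR
import Pool.Agent.Work.MP_a9cb80_sn.B_DEL
import Pool.Agent.Work.MP_a9cb80_sn.B_NAx
import Pool.Agent.Work.MP_a9cb80_sn.B_T1x

/-!
# Face degree sequences of sona maps: small sums (MP_a9cb80_lc)

`Sona n d`: there is a sona map with `n` bounded faces of degrees `d 0, ..., d (n-1)`.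
-/

set_option autoImplicit false

namespace Pool.Agent.Results.MP_a9cb80_lc.SmallSum

open Pool.SN

theorem result :
    ∀ (n : ℕ) (d : Fin n → ℕ), 2 ≤ n → ∑ i, d i + 1 ≤ 2 * n →
      (Sona n d ↔ (∀ i, 1 ≤ d i) ∧ (∑ i, d i + 2 = 2 * n ∨
        (∑ i, d i + 1 = 2 * n ∧ (n = 2 ∨ ∃ i, 3 ≤ d i)))) := by
  have hDEL := p_DEL p_ONEF (p_REM p_CV) p_FEQ (p_LBR (p_FV p_CV))
  have hT1 := p_T1x c_NEC c_FIN c_ONE (p_NAx hDEL p_CNT c_COL p_ONEF)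
  intro n d h1 h2
  exact small_sum c_FIN c_NEC hT1 n d h1 h2

end Pool.Agent.Results.MP_a9cb80_lc.SmallSum
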